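import Mathlib
import Pool.Agent.H12.Tang3

set_option autoImplicit false

namespace Pool.Agent.Results.MP_4e9c6d_co.ModularNormal

open scoped Classical Matroid
open Pool.Agent.H12.Tang

/-- Every tangential k-block over a finite field with a modular hyperplane is normal. -/
theorem result (F : Type) [Field F] [Fintype F] (k : ℕ) (_hk : 1 ≤ k)
    (α : Type) [Fintype α] (M : Matroid α)
    (hrep : Rep F M) (hs : Simple M) (hb : CritGt (Fintype.card F) k M)
    (ht : ∀ X : Set α, M.IsFlat X → X.Nonempty → ¬ CritGt (Fintype.card F) k (M ／ X))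
    (H : Set α) (hH : Modular M H) (hr : M.eRk H + 1 = M.eRk M.E) :
    SimpQuot (Fintype.card F ^ k + 1) M := by
  obtain ⟨n, v, hv⟩ := hrep
  refine normal_of_modular hv hs k ((critGt_iff hv k).1 hb) ?_ hH hr
  intro x hx
  have hxE : ({x} : Set α) ⊆ M.E := Set.singleton_subset_iff.2 hx
  have hfl : M.IsFlat {x} := by
    rw [Matroid.isFlat_iff_closure_eq]
    apply Set.Subset.antisymm _ (M.subset_closure _ hxE)
    intro e he
    have heE := M.closure_subset_ground _ he
    rw [mem_closure hv hxE heE, Set.image_singleton, Submodule.mem_span_singleton] at he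
    obtain ⟨c, hc⟩ := he
    exact simple_eq hv hs heE hx hc.symm
  have h := ht _ hfl (Set.singleton_nonempty x)
  rw [← Matroid.delete_empty (M ／ {x})] at h
  obtain ⟨φ, h1, h2⟩ := (not_critGt_iff hv hxE ∅ k).1 h
  exact ⟨φ, h1 x rfl, fun e he hex => h2 e ⟨⟨he, hex⟩, by simp⟩⟩

end Pool.Agent.Results.MP_4e9c6d_co.ModularNormal
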